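import Pool.Agent.Helper56.LiftUniv.Main

/-!
# Orthogonal lifts of cohomologically trivial cycles and representations of finite groups

The varieties are smooth projective over the algebraic closure `k` of `ℚ`, and `n ≥ 1` and `r` are
natural numbers. A class in `CH^r(X) ⊗ ℚ` is liftable if it has, after an alteration, a lift to a regular
model which is orthogonal to all fibral cycles; `LiftingHolds M H r n` says that for all varieties `X`
of dimension `n` and all regular models all cohomologically trivial classes of codimension `r` which
are defined over the number field of the model have such lifts to this model.

Let `Y` be a variety of dimension `n`, for example the projective space. A representation of a finite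
group `Δ` occurs above `Y` if there is a variety `X` of dimension `n` with an action of `Δ` and a
`Δ`-invariant generically finite surjective morphism to `Y`, such that the representation is a
subrepresentation of the space of the cohomologically trivial classes of codimension `r` on `X` which
meets the space of the liftable classes in zero.

**Theorem.** If there is ONE cohomologically trivial class of codimension `r` on ONE variety of
dimension `n` which is not liftable, then ALL finite-dimensional rational representations of ALL finite
groups occur above EVERY variety `Y` of dimension `n`. So all cohomologically trivial classes of
codimension `r` on all varieties of dimension `n` have orthogonal lifts to all regular models if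
(and only if) one representation of one finite group does not occur above one `Y`.

For example, it is enough to show for varieties `X` with an involution and an invariant generically
finite morphism to the projective space that the cohomologically trivial classes which are
anti-invariant under the involution are liftable; or that there is a bound for the number of such
classes which are linearly independent modulo liftable ones.

The same is true for any family of subspaces `P` of numerically trivial classes stable under pull-backs
and any family of subspaces `N` stable under push-forwards (`occurs_of_not`).

Proof. Let `t` be the class on `S`, `E` the representation, `M` its dimension. Let `X` be a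
`Δ`-invariant complete intersection of dimension `n` in `S^{M × Δ} × Y`, `p i d : X ⟶ S` the
projections. The maps `(p i d)_* (p i' d')^*` are multiplications with a number `κ ≠ 0` if the
indices are equal, and otherwise they kill numerically trivial classes. If `λ_i` are the coordinates on
`E`, then `e ↦ ∑ λ_i (d e) (p i d)^* t` is equivariant, and its composition with the push-forward along
`p i 1` is `e ↦ λ_i (e) κ t`. The liftable classes are stable under push-forwards (library).
-/

open CategoryTheory AlgebraicGeometry

universe u v w

namespace Pool.Agent.Results.MP_62d77c_ag.OmittedRepresentation

open Pool.Agent.H914 Pool.Agent.H914.VarClass Pool.Agent.H914.VarClass.Obj Pool.Agent.W492.BB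
  Pool.Agent.TH133 Pool.Agent.TH629.CM.Th Pool.Agent.Helper56.LiftUniv

/-- **Orthogonal lifts and representations of finite groups.** -/
theorem result {k : Type u} [Field k] {𝒱 : VarClass k} (C : TheoryData.{u, v, 0} 𝒱 ℚ)
    [IsChowProj C] {K : Type w} [Field K] (H : WeilTheoryData.{u, v, w} C K) [IsWeilProj H]
    (M : Models C) (hM : M.IsGood H) (n r : ℕ) (hP : HasInvariantIntersections C n)
    (Y : 𝒱.Obj) (hY : Y.dim = n) :
    LiftingHolds M H r n ↔ ∃ F : FinRep,
      ¬ OccursAbove C (fun X z => z ∈ homTriv H X r) (fun _ z => M.Liftable z) Y n F :=
  lifting_law hM hP hY

end Pool.Agent.Results.MP_62d77c_ag.OmittedRepresentation
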